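import Pool.Agent.W203.WS.Stm

set_option autoImplicit false

open MeasureTheory Finset Filter Topology

namespace Pool.Agent.W90.WS

open Pool.Agent.W203.WS

/-- choice of the dyadic level -/
theorem exists_level (g : ℕ → ℝ) (hmono : Monotone g) (hg : Tendsto g atTop atTop) (j1 : ℕ) (M : ℝ)
    (hM : g j1 ≤ M) : ∃ j, j1 ≤ j ∧ g j ≤ M ∧ M ≤ g (j + 1) := by
  classical
  have hex : ∃ N, M < g N := (hg.eventually (eventually_gt_atTop M)).exists
  have hspec := Nat.find_spec hex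
  have hgt : j1 < Nat.find hex := by
    by_contra hle
    push Not at hle
    have := hmono hle
    linarith
  obtain ⟨j, hj⟩ : ∃ j, Nat.find hex = j + 1 := ⟨Nat.find hex - 1, by omega⟩
  refine ⟨j, by omega, ?_, ?_⟩
  · have := Nat.find_min hex (m := j) (by omega)
    linarith [not_lt.mp this]
  · rw [← hj]; exact hspec.le

/-- the analytic comparison -/
theorem exists_small (s : ℕ) (c A γ q : ℝ) (hc : 0 < c) (hA : 0 < A) (hγ : 0 < γ) :
    ∃ j₂ : ℕ, ∀ j : ℕ, j₂ ≤ j →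
      (3 : ℝ) ^ s * (((2 : ℝ) ^ j) ^ q * Real.exp (-(Real.pi * A ^ 2) * ((2 : ℝ) ^ j) ^ (2 * γ)))
        < c := by
  have h1 : Tendsto (fun x : ℝ => x ^ (q / (2 * γ)) * Real.exp (-(Real.pi * A ^ 2) * x)) atTop
      (𝓝 0) :=
    tendsto_rpow_mul_exp_neg_mul_atTop_nhds_zero _ _ (by positivity)
  have h2 : Tendsto (fun j : ℕ => ((2 : ℝ) ^ j) ^ (2 * γ)) atTop atTop :=
    (tendsto_rpow_atTop (by positivity : (0 : ℝ) < 2 * γ)).comp
      (tendsto_pow_atTop_atTop_of_one_lt (by norm_num : (1 : ℝ) < 2))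
  have h3 := (h1.comp h2).const_mul ((3 : ℝ) ^ s)
  rw [mul_zero] at h3
  have h4 := h3.eventually (gt_mem_nhds hc)
  obtain ⟨j₂, hj₂⟩ := eventually_atTop.mp h4
  refine ⟨j₂, fun j hj => ?_⟩
  have h5 := hj₂ j hj
  simp only [Function.comp_apply] at h5
  rw [← Real.rpow_mul (by positivity : (0 : ℝ) ≤ (2 : ℝ) ^ j)] at h5
  rw [show 2 * γ * (q / (2 * γ)) = q by field_simp] at h5
  exact h5

theorem t_MAIN (h : S_BC) : S_MAIN := by
  intro k s δ hk hs hδ
  have hk0 : (0 : ℝ) < k := by exact_mod_cast (by omega : 0 < k)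
  have hs' : (2 : ℝ) * k < s := by exact_mod_cast hs
  set δ' : ℝ := max δ 0 with hδ'
  have hδ0 : 0 ≤ δ' := le_max_right _ _
  have hδle : δ ≤ δ' := le_max_left _ _
  have hkd : (k : ℝ) * δ' < (s : ℝ) / 2 - k := by
    have h1 : δ' < ((s : ℝ) - 2 * k) / (2 * k) := by
      rw [hδ']
      refine max_lt hδ ?_
      apply div_pos <;> linarith
    rw [lt_div_iff₀ (by positivity)] at h1
    nlinarith
  set β : ℝ := ((k : ℝ) * δ' + ((s : ℝ) / 2 - k)) / 2 with hβ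
  have hβ1 : (k : ℝ) * δ' < β := by rw [hβ]; linarith
  have hβ2 : β < (s : ℝ) / 2 - k := by rw [hβ]; linarith
  have hβ0 : 0 ≤ β := le_trans (by positivity) hβ1.le
  obtain ⟨c, hc, hae⟩ := h k s β hk hs hβ0 hβ2
  filter_upwards [hae] with θ hθ
  obtain ⟨j₀, hj₀⟩ := hθ
  intro L
  have hs0 : (0 : ℝ) < s := by linarith
  set A : ℝ := ((s : ℝ) * 3 ^ k) ^ (-δ') with hA
  have hApos : 0 < A := by rw [hA]; positivity
  obtain ⟨j₂, hj₂⟩ := exists_small s c A (β - k * δ') ((k : ℝ) + β) hc hApos (by linarith)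
  set g : ℕ → ℝ := fun j => (s : ℝ) * (3 / 2 * (2 : ℝ) ^ j) ^ k with hg
  have hgmono : Monotone g := by
    intro a b hab
    simp only [hg]
    have : (2 : ℝ) ^ a ≤ (2 : ℝ) ^ b := pow_le_pow_right₀ (by norm_num) hab
    gcongr
  have hgt : Tendsto g atTop atTop := by
    simp only [hg]
    apply Tendsto.const_mul_atTop hs0
    apply (tendsto_pow_atTop (by omega : k ≠ 0)).comp
    apply Tendsto.const_mul_atTop (by norm_num)
    exact tendsto_pow_atTop_atTop_of_one_lt (by norm_num : (1 : ℝ) < 2)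
  set j1 : ℕ := max j₀ (max L j₂) with hj1
  refine ⟨max 1 (g j1), fun M hM => ?_⟩
  have hM1 : 1 ≤ M := le_trans (le_max_left _ _) hM
  obtain ⟨j, hjge, hgj, hgj1⟩ := exists_level g hgmono hgt j1 M (le_trans (le_max_right _ _) hM)
  have hgj1' : M ≤ (s : ℝ) * (3 * (2 : ℝ) ^ j) ^ k := by
    have : g (j + 1) = (s : ℝ) * (3 * (2 : ℝ) ^ j) ^ k := by
      simp only [hg]; congr 2; ring
    rw [← this]; exact hgj1
  have hlow := hj₀ j (le_trans (le_max_left _ _) hjge) M hgj hgj1'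
  have hsm := hj₂ j (le_trans (le_trans (le_max_right _ _) (le_max_right _ _)) hjge)
  have hLj : L ≤ 2 ^ j :=
    le_trans (le_trans (le_trans (le_max_left _ _) (le_max_right _ _)) hjge)
      (Nat.lt_two_pow_self).le
  by_contra hno
  push Not at hno
  -- every term is small
  have hterm : ∀ x ∈ Fintype.piFinset (fun _ : Fin s => Ico (2 ^ j : ℕ) (4 * 2 ^ j)),
      Kr (((2 : ℝ) ^ j) ^ (-β)) ((∑ i, (((x i : ℕ) : ℝ) + θ i) ^ k) - M) ≤
        Real.exp (-(Real.pi * A ^ 2) * ((2 : ℝ) ^ j) ^ (2 * (β - k * δ'))) := by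
    intro x hx
    rw [Fintype.mem_piFinset] at hx
    have h1 := hno x (fun i => le_trans hLj (Finset.mem_Ico.mp (hx i)).1)
    set y : ℝ := (∑ i, ((x i : ℝ) + θ i) ^ k) - M with hy
    have hP : (0 : ℝ) < (2 : ℝ) ^ j := by positivity
    have hMpos : 0 < M := by linarith
    have h2 : A * ((2 : ℝ) ^ j) ^ (-(k * δ')) ≤ |y| := by
      calc A * ((2 : ℝ) ^ j) ^ (-(k * δ'))
          = ((s : ℝ) * (3 * (2 : ℝ) ^ j) ^ k) ^ (-δ') := by
            have e1 : ((s : ℝ) * (3 * (2 : ℝ) ^ j) ^ k) = ((s : ℝ) * 3 ^ k) * ((2 : ℝ) ^ j) ^ (k : ℝ) := by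
              rw [Real.rpow_natCast, mul_pow, ← mul_assoc]
            rw [e1, Real.mul_rpow (by positivity) (by positivity), ← Real.rpow_mul hP.le,
              mul_neg]
        _ ≤ M ^ (-δ') := by
            rw [Real.rpow_neg hMpos.le, Real.rpow_neg (by positivity)]
            apply inv_anti₀ (Real.rpow_pos_of_pos hMpos _)
            exact Real.rpow_le_rpow hMpos.le hgj1' hδ0
        _ ≤ M ^ (-δ) := Real.rpow_le_rpow_of_exponent_le hM1 (by linarith)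
        _ ≤ |y| := h1
    have h3 : A * ((2 : ℝ) ^ j) ^ (β - k * δ') ≤ |y| / ((2 : ℝ) ^ j) ^ (-β) := by
      rw [le_div_iff₀ (Real.rpow_pos_of_pos hP _), mul_assoc, ← Real.rpow_add hP]
      rw [show β - k * δ' + -β = -(k * δ') by ring]
      exact h2
    have h4 : A ^ 2 * ((2 : ℝ) ^ j) ^ (2 * (β - k * δ')) ≤ (y / ((2 : ℝ) ^ j) ^ (-β)) ^ 2 := by
      have h5 : (A * ((2 : ℝ) ^ j) ^ (β - k * δ')) ^ 2 ≤ (|y| / ((2 : ℝ) ^ j) ^ (-β)) ^ 2 := by
        apply pow_le_pow_left₀ (by positivity) h3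
      rw [div_pow, sq_abs, ← div_pow] at h5
      refine le_trans (le_of_eq ?_) h5
      rw [mul_pow, ← Real.rpow_natCast (((2 : ℝ) ^ j) ^ (β - k * δ')) 2, ← Real.rpow_mul hP.le]
      congr 2
      push_cast
      ring
    unfold Kr
    apply Real.exp_le_exp.mpr
    have := mul_le_mul_of_nonneg_left h4 Real.pi_pos.le
    nlinarith [this]
  have hsum : rr k s (2 ^ j) (((2 : ℝ) ^ j) ^ (-β)) M θ ≤
      (3 : ℝ) ^ s * ((2 : ℝ) ^ j) ^ (s : ℝ) *
        Real.exp (-(Real.pi * A ^ 2) * ((2 : ℝ) ^ j) ^ (2 * (β - k * δ'))) := by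
    unfold rr
    refine le_trans (Finset.sum_le_card_nsmul _ _ _ hterm) (le_of_eq ?_)
    rw [Fintype.card_piFinset]
    simp only [Nat.card_Ico, Finset.prod_const, Finset.card_univ, Fintype.card_fin]
    rw [show 4 * 2 ^ j - 2 ^ j = 3 * 2 ^ j by omega, nsmul_eq_mul]
    push_cast
    rw [mul_pow, Real.rpow_natCast]
  have hfin : (3 : ℝ) ^ s * ((2 : ℝ) ^ j) ^ (s : ℝ) *
        Real.exp (-(Real.pi * A ^ 2) * ((2 : ℝ) ^ j) ^ (2 * (β - k * δ'))) <
      c * ((2 : ℝ) ^ j) ^ ((s : ℝ) - k - β) := by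
    have hP : (0 : ℝ) < (2 : ℝ) ^ j := by positivity
    have h6 : ((2 : ℝ) ^ j) ^ (s : ℝ) =
        ((2 : ℝ) ^ j) ^ ((s : ℝ) - k - β) * ((2 : ℝ) ^ j) ^ ((k : ℝ) + β) := by
      rw [← Real.rpow_add hP]
      congr 1
      ring
    rw [h6]
    have h7 := mul_lt_mul_of_pos_right hsm
      (Real.rpow_pos_of_pos hP ((s : ℝ) - k - β))
    refine lt_of_le_of_lt (le_of_eq ?_) h7
    ring
  linarith

end Pool.Agent.W90.WS
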